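import Pool.Agent.N167.TR.Stm

/-! TR/4: comparison of two nonnegative solutions on a tree (project TR of helper167). -/

set_option autoImplicit false

namespace Pool.Agent.N721.TR

open Set Pool.Agent.N167.TR

variable {M : ℕ}

/-- The outflow term of the comparison. -/
noncomputable def gg (X Z : List (Fin M) → ℝ) (j : List (Fin M)) : ℝ :=
  2 * (X j - Z j) * (X j * ∑ k : Fin M, X (k :: j) - Z j * ∑ k : Fin M, Z (k :: j))

/-- The derivative of the square of the difference. -/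
noncomputable def dd (B D ν : ℝ) (f X Z : List (Fin M) → ℝ) (j : List (Fin M)) : ℝ :=
  2 * (X j - Z j) * (rhs B D ν f X j - rhs B D ν f Z j)

theorem sum_gg (X Z : List (Fin M) → ℝ) (i : List (Fin M)) :
    (X i ^ 2 - Z i ^ 2) * ∑ k : Fin M, (X (k :: i) - Z (k :: i)) =
      gg X Z i - (X i - Z i) ^ 2 * ∑ k : Fin M, (X (k :: i) + Z (k :: i)) := by
  unfold gg
  rw [Finset.sum_sub_distrib, Finset.sum_add_distrib]
  ring

theorem step {B D ν : ℝ} (hB : 0 ≤ B) (hD : 0 ≤ D) (hν : 0 ≤ ν) (f X Z : List (Fin M) → ℝ) (N : ℕ)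
    (h : ∀ j : List (Fin M), j.length ≤ N + 1 → 0 ≤ X j ∧ 0 ≤ Z j) (i : List (Fin M))
    (hi : i.length = N) :
    ∑ k : Fin M, dd B D ν f X Z (k :: i) ≤
      2 * B ^ N * gg X Z i + -B ^ (N + 1) * ∑ k : Fin M, gg X Z (k :: i) := by
  have h1 : ∀ k : Fin M, dd B D ν f X Z (k :: i) ≤
      2 * B ^ N * (X i ^ 2 - Z i ^ 2) * (X (k :: i) - Z (k :: i)) +
        -B ^ (N + 1) * gg X Z (k :: i) := by
    intro k
    have h2 : dd B D ν f X Z (k :: i) = 2 * B ^ N * (X i ^ 2 - Z i ^ 2) * (X (k :: i) - Z (k :: i)) +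
        -B ^ (N + 1) * gg X Z (k :: i) - 2 * (ν * D ^ (N + 1)) * (X (k :: i) - Z (k :: i)) ^ 2 := by
      unfold dd rhs gg inflow
      simp only [List.length_cons, hi]
      ring
    rw [h2]
    have h3 : 0 ≤ 2 * (ν * D ^ (N + 1)) * (X (k :: i) - Z (k :: i)) ^ 2 := by positivity
    linarith
  refine (Finset.sum_le_sum fun k _ => h1 k).trans ?_
  rw [Finset.sum_add_distrib, ← Finset.mul_sum, ← Finset.mul_sum, mul_assoc (2 * B ^ N), sum_gg]
  have h4 : 0 ≤ ∑ k : Fin M, (X (k :: i) + Z (k :: i)) := by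
    refine Finset.sum_nonneg fun k _ => ?_
    have h5 := h (k :: i) (by rw [List.length_cons, hi])
    linarith [h5.1, h5.2]
  have h6 : 0 ≤ 2 * B ^ N * ((X i - Z i) ^ 2 * ∑ k : Fin M, (X (k :: i) + Z (k :: i))) := by
    positivity
  linarith

/-- The algebraic inequality. -/
theorem alg (hgen : S_gen) {B D ν : ℝ} (hB : 0 ≤ B) (hD : 0 ≤ D) (hν : 0 ≤ ν)
    (f X Z : List (Fin M) → ℝ) (N : ℕ)
    (h : ∀ j : List (Fin M), j.length ≤ N + 1 → 0 ≤ X j ∧ 0 ≤ Z j) :
    ∑ n ∈ Finset.range (N + 1), (1 / 2 : ℝ) ^ n * gen n (dd B D ν f X Z) ≤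
      -((1 / 2 : ℝ) ^ N * B ^ N * gen N (gg X Z)) := by
  obtain ⟨g1, g2, g3, -, -, -, -⟩ := hgen M
  induction N with
  | zero =>
    rw [zero_add, Finset.sum_range_one]
    simp only [gen, pow_zero, one_mul]
    have h1 : dd B D ν f X Z [] = -gg X Z [] - 2 * ν * (X [] - Z []) ^ 2 := by
      unfold dd rhs gg inflow
      simp only [List.length_nil, pow_zero]
      ring
    rw [h1]
    have h2 : 0 ≤ 2 * ν * (X [] - Z []) ^ 2 := by positivity
    linarith
  | succ N ih =>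
    rw [Finset.sum_range_succ]
    have h1 := ih fun j hj => h j (by omega)
    have h2 : gen (N + 1) (dd B D ν f X Z) ≤
        2 * B ^ N * gen N (gg X Z) + -B ^ (N + 1) * gen (N + 1) (gg X Z) := by
      have h3 := g3 N (fun i => ∑ k : Fin M, dd B D ν f X Z (k :: i))
        (fun i => 2 * B ^ N * gg X Z i + -B ^ (N + 1) * ∑ k : Fin M, gg X Z (k :: i))
        (fun i hi => step hB hD hν f X Z N (fun j hj => h j (by omega)) i hi)
      rw [g1 N (fun i => 2 * B ^ N * gg X Z i)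
        (fun i => -B ^ (N + 1) * ∑ k : Fin M, gg X Z (k :: i)), g2, g2] at h3
      exact h3
    have h4 : (0 : ℝ) ≤ (1 / 2 : ℝ) ^ (N + 1) := by positivity
    have h5 := mul_le_mul_of_nonneg_left h2 h4
    have h6 : (1 / 2 : ℝ) ^ (N + 1) *
        (2 * B ^ N * gen N (gg X Z) + -B ^ (N + 1) * gen (N + 1) (gg X Z)) =
        (1 / 2 : ℝ) ^ N * B ^ N * gen N (gg X Z) -
          (1 / 2 : ℝ) ^ (N + 1) * B ^ (N + 1) * gen (N + 1) (gg X Z) := by
      rw [pow_succ (1 / 2 : ℝ) N]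
      ring
    rw [h6] at h5
    linarith

theorem last {x z x' z' : ℝ} (hx : 0 ≤ x') (hz : 0 ≤ z') :
    -(2 * (x - z) * (x * x' - z * z')) ≤ 2 * (x * z * (x' + z')) := by
  nlinarith [mul_nonneg (sq_nonneg x) hx, mul_nonneg (sq_nonneg z) hz]

theorem psi : S_psi := by
  intro hgen M B D ν f N T η X Z hB hD hν hT hX hZ hnn hη t ht
  obtain ⟨g1, g2, g3, -, -, g6, -⟩ := id hgen M
  set P : ℝ → ℝ := fun t => ∑ n ∈ Finset.range (N + 1), (1 / 2 : ℝ) ^ n *
    gen n (fun j => (X j t - Z j t) ^ 2) with hP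
  set P' : ℝ → ℝ := fun t => ∑ n ∈ Finset.range (N + 1), (1 / 2 : ℝ) ^ n *
    gen n (dd B D ν (fun i => f i t) (fun i => X i t) (fun i => Z i t)) with hP'
  have hd : ∀ s ∈ Icc (0 : ℝ) T, HasDerivWithinAt P (P' s) (Icc 0 T) s := by
    intro s hs
    refine HasDerivWithinAt.fun_sum fun n hn => ?_
    have hn' : n ≤ N := Nat.lt_succ_iff.1 (Finset.mem_range.1 hn)
    refine HasDerivWithinAt.const_mul _ ?_
    refine g6 n (fun j r => (X j r - Z j r) ^ 2)
      (fun j r => dd B D ν (fun i => f i r) (fun i => X i r) (fun i => Z i r) j) (Icc 0 T) s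
      fun j hj => ?_
    have h1 := ((hX j (hj.le.trans hn') s hs).sub (hZ j (hj.le.trans hn') s hs)).pow 2
    refine h1.congr_deriv ?_
    unfold dd
    simp only [Pi.sub_apply]
    norm_num
  have hle : ∀ s ∈ Icc (0 : ℝ) T, P' s ≤ 2 * η := by
    intro s hs
    have h1 := alg hgen hB hD hν (fun i => f i s) (fun i => X i s) (fun i => Z i s) N
      (fun j hj => hnn j hj s hs)
    have h2 : gen N (fun j => (-1) * gg (fun i => X i s) (fun i => Z i s) j) ≤
        gen N (fun j => 2 * (X j s * Z j s * ∑ k : Fin M, (X (k :: j) s + Z (k :: j) s))) := by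
      refine g3 N _ _ fun j hj => ?_
      have h3 : 0 ≤ ∑ k : Fin M, X (k :: j) s := Finset.sum_nonneg fun k _ =>
        (hnn (k :: j) (by rw [List.length_cons, hj]) s hs).1
      have h4 : 0 ≤ ∑ k : Fin M, Z (k :: j) s := Finset.sum_nonneg fun k _ =>
        (hnn (k :: j) (by rw [List.length_cons, hj]) s hs).2
      have h5 := last (x := X j s) (z := Z j s) h3 h4
      unfold gg
      rw [Finset.sum_add_distrib, neg_one_mul]
      exact h5
    rw [g2, g2] at h2
    have h3 := hη s hs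
    have h4 : (0 : ℝ) ≤ (1 / 2 : ℝ) ^ N * B ^ N := by positivity
    have h5 := mul_le_mul_of_nonneg_left h2 h4
    refine h1.trans ?_
    nlinarith
  have hg : ∀ s ∈ Icc (0 : ℝ) T,
      HasDerivWithinAt (fun s => 2 * η * s - P s) (2 * η - P' s) (Icc 0 T) s := by
    intro s hs
    have h1 : HasDerivWithinAt (fun s : ℝ => 2 * η * s) (2 * η) (Icc 0 T) s := by
      simpa using (hasDerivWithinAt_id s (Icc 0 T)).const_mul (2 * η)
    exact h1.sub (hd s hs)
  have hmono : MonotoneOn (fun s => 2 * η * s - P s) (Icc 0 T) := by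
    refine monotoneOn_of_deriv_nonneg (convex_Icc 0 T) (fun s hs => (hg s hs).continuousWithinAt)
      ?_ ?_
    · rw [interior_Icc]
      intro s hs
      exact ((hg s (Ioo_subset_Icc_self hs)).hasDerivAt
        (Icc_mem_nhds hs.1 hs.2)).differentiableAt.differentiableWithinAt
    · rw [interior_Icc]
      intro s hs
      rw [((hg s (Ioo_subset_Icc_self hs)).hasDerivAt (Icc_mem_nhds hs.1 hs.2)).deriv]
      linarith [hle s (Ioo_subset_Icc_self hs)]
  have h1 := hmono (left_mem_Icc.2 hT) ht ht.1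
  simp only [mul_zero, zero_sub] at h1
  have h3 : P t ≤ P 0 + 2 * η * t := by linarith
  exact h3

end Pool.Agent.N721.TR
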